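import Mathlib

/-!
# Two-player hat game: from a pointwise inequality to a bound

`A` wears `n` hats, `B` wears `m` hats.  Complementing the stack `x` of `A` pairs the summands, and a
pointwise inequality for the Boolean function `y ↦ x (f y)` whose correction terms are products of an
even number of signs (nonnegative on average over `x`) gives a bound for the winning probability.
-/

set_option autoImplicit false

namespace Pool.Agent.Lib.MP_e6e31f_h67

open Finset

/-- The number of winning pairs. -/
def wins {n m : ℕ} (f : (Fin m → Bool) → Fin n) (g : (Fin n → Bool) → Fin m) : ℕ :=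
  (univ.filter fun p : (Fin n → Bool) × (Fin m → Bool) =>
    p.1 (f p.2) = true ∧ p.2 (g p.1) = true).card

/-- The sign of a Boolean. -/
def sg (b : Bool) : ℤ := if b = true then 1 else -1

theorem sg_mul (a b : Bool) : sg a * sg b = 2 * ((a == b).toNat : ℤ) - 1 := by
  cases a <;> cases b <;> simp [sg]

theorem sg_mul4 (a b c d : Bool) :
    sg a * sg b * sg c * sg d = 2 * (((a == b) == (c == d)).toNat : ℤ) - 1 := by
  cases a <;> cases b <;> cases c <;> cases d <;> simp [sg]

/-- The two summands of a complementary pair of stacks. -/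
def W {m : ℕ} (h : (Fin m → Bool) → Bool) (j j' : Fin m) : ℤ :=
  ∑ y : Fin m → Bool, ((if h y = true ∧ y j = true then 1 else 0) +
    (if h y = false ∧ y j' = true then 1 else 0))

/-- The complement of a stack. -/
def cpl {n : ℕ} : (Fin n → Bool) ≃ (Fin n → Bool) where
  toFun x := fun i => !(x i)
  invFun x := fun i => !(x i)
  left_inv x := by funext i; simp
  right_inv x := by funext i; simp

theorem two_wins {n m : ℕ} (f : (Fin m → Bool) → Fin n) (g : (Fin n → Bool) → Fin m) :
    2 * (wins f g : ℤ) = ∑ x : Fin n → Bool, W (fun y => x (f y)) (g x) (g (cpl x)) := by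
  have h1 : (wins f g : ℤ) = ∑ x : Fin n → Bool, ∑ y : Fin m → Bool,
      (if x (f y) = true ∧ y (g x) = true then 1 else 0 : ℤ) := by
    rw [wins, Finset.card_filter]
    push_cast
    rw [Fintype.sum_prod_type]
  have h2 : (wins f g : ℤ) = ∑ x : Fin n → Bool, ∑ y : Fin m → Bool,
      (if x (f y) = false ∧ y (g (cpl x)) = true then 1 else 0 : ℤ) := by
    rw [h1]
    refine (Fintype.sum_equiv cpl _ _ fun x => ?_)
    refine Finset.sum_congr rfl fun y _ => ?_
    have e1 : cpl (cpl x) = x := cpl.left_inv x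
    have e2 : (cpl x) (f y) = !(x (f y)) := rfl
    rw [e1, e2]
    congr 1
    cases x (f y) <;> simp
  rw [two_mul]
  nth_rewrite 1 [h1]
  rw [h2, ← Finset.sum_add_distrib]
  refine Finset.sum_congr rfl fun x _ => ?_
  rw [W, ← Finset.sum_add_distrib]

theorem wins_le {n m : ℕ} (f : (Fin m → Bool) → Fin n) (g : (Fin n → Bool) → Fin m) (α β : ℤ)
    (R : ((Fin m → Bool) → Bool) → ℤ) (H1 : ∀ h j j', α * W h j j' + R h ≤ β)
    (H2 : 0 ≤ ∑ x : Fin n → Bool, R (fun y => x (f y))) :
    2 * α * (wins f g : ℤ) ≤ β * 2 ^ n := by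
  have h1 : ∑ x : Fin n → Bool, (α * W (fun y => x (f y)) (g x) (g (cpl x)) +
      R (fun y => x (f y))) ≤ ∑ _x : Fin n → Bool, β :=
    Finset.sum_le_sum fun x _ => H1 _ _ _
  rw [Finset.sum_add_distrib, ← Finset.mul_sum, ← two_wins, Finset.sum_const, Finset.card_univ,
    Fintype.card_fun, Fintype.card_bool, Fintype.card_fin, nsmul_eq_mul] at h1
  push_cast at h1
  nlinarith

theorem moment_nonneg {n r : ℕ} (F : Fin r → Fin n) :
    0 ≤ ∑ x : Fin n → Bool, ∏ k, sg (x (F k)) := by
  have h1 : ∀ x : Fin n → Bool, ∏ k, sg (x (F k)) =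
      ∏ i, sg (x i) ^ (univ.filter fun k => F k = i).card := by
    intro x
    rw [← Finset.prod_fiberwise (s := univ) (g := F)]
    refine Finset.prod_congr rfl fun i _ => ?_
    rw [Finset.prod_congr rfl (g := fun _ => sg (x i))]
    · rw [Finset.prod_const]
    · intro k hk
      rw [(Finset.mem_filter.1 hk).2]
  rw [Finset.sum_congr rfl fun x _ => h1 x]
  have h2 := Finset.prod_univ_sum (fun _ : Fin n => (univ : Finset Bool))
    (fun i b => sg b ^ (univ.filter fun k => F k = i).card)
  rw [Fintype.piFinset_univ] at h2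
  rw [← h2]
  refine Finset.prod_nonneg fun i _ => ?_
  rw [Fintype.sum_bool]
  have h3 : sg true = 1 := rfl
  have h4 : sg false = -1 := rfl
  rw [h3, h4, one_pow]
  rcases Nat.even_or_odd (univ.filter fun k => F k = i).card with h | h
  · rw [h.neg_one_pow]; norm_num
  · rw [h.neg_one_pow]; norm_num

theorem moment2 {n : ℕ} (i j : Fin n) : 0 ≤ ∑ x : Fin n → Bool, sg (x i) * sg (x j) := by
  have h := moment_nonneg ![i, j]
  simpa [Fin.prod_univ_two] using h

theorem moment4 {n : ℕ} (i j k l : Fin n) :
    0 ≤ ∑ x : Fin n → Bool, sg (x i) * sg (x j) * sg (x k) * sg (x l) := by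
  have h := moment_nonneg ![i, j, k, l]
  simpa [Fin.prod_univ_four] using h

end Pool.Agent.Lib.MP_e6e31f_h67
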