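import Mathlib

/-!
# The certificate for four hats

`leaf_all`: an inequality for the 2^14 assignments of signs to the non constant points of the
four dimensional cube, checked by evaluation in the kernel.
-/

set_option autoImplicit false
set_option linter.unusedVariables false

namespace Pool.Agent.Lib.MP_e6e31f_h67

def allB (p : Bool → Bool) : Bool := p false && p true

theorem of_allB {p : Bool → Bool} (h : allB p = true) (b : Bool) : p b = true := by
  cases b <;> simp_all [allB]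

def cmp4 (a0 a1 a2 a3 r : ℕ) : Bool :=
  Nat.ble (8 * a0 + r) (50 + 8 * a1) && Nat.ble (8 * a0 + r) (50 + 8 * a2) &&
  Nat.ble (8 * a0 + r) (50 + 8 * a3) && Nat.ble (8 * a1 + r) (50 + 8 * a0) &&
  Nat.ble (8 * a1 + r) (50 + 8 * a2) && Nat.ble (8 * a1 + r) (50 + 8 * a3) &&
  Nat.ble (8 * a2 + r) (50 + 8 * a0) && Nat.ble (8 * a2 + r) (50 + 8 * a1) &&
  Nat.ble (8 * a2 + r) (50 + 8 * a3) && Nat.ble (8 * a3 + r) (50 + 8 * a0) &&
  Nat.ble (8 * a3 + r) (50 + 8 * a1) && Nat.ble (8 * a3 + r) (50 + 8 * a2)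

def rpos (b1 b2 b3 b4 b5 b6 b7 b8 b9 b10 b11 b12 b13 b14 : Bool) : ℕ :=
    2 * (b1 == b14).toNat +
    2 * (b2 == b13).toNat +
    2 * (b4 == b11).toNat +
    2 * (b8 == b7).toNat +
    4 * (b3 == b12).toNat +
    4 * (b5 == b10).toNat +
    4 * (b6 == b9).toNat +
    2 * ((b3 == b12) == (b5 == b10)).toNat +
    2 * ((b3 == b12) == (b6 == b9)).toNat +
    2 * ((b5 == b10) == (b6 == b9)).toNat +
    ((b1 == b14) == (b6 == b10)).toNat +
    ((b1 == b14) == (b6 == b12)).toNat +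
    ((b1 == b14) == (b10 == b12)).toNat +
    ((b1 == b14) == (b3 == b5)).toNat +
    ((b1 == b14) == (b3 == b9)).toNat +
    ((b1 == b14) == (b5 == b9)).toNat +
    ((b2 == b13) == (b5 == b9)).toNat +
    ((b2 == b13) == (b5 == b12)).toNat +
    ((b2 == b13) == (b9 == b12)).toNat +
    ((b2 == b13) == (b3 == b6)).toNat +
    ((b2 == b13) == (b3 == b10)).toNat +
    ((b2 == b13) == (b6 == b10)).toNat +
    ((b4 == b11) == (b3 == b9)).toNat +
    ((b4 == b11) == (b3 == b10)).toNat +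
    ((b4 == b11) == (b9 == b10)).toNat +
    ((b4 == b11) == (b5 == b6)).toNat +
    ((b4 == b11) == (b5 == b12)).toNat +
    ((b4 == b11) == (b6 == b12)).toNat +
    ((b8 == b7) == (b3 == b5)).toNat +
    ((b8 == b7) == (b3 == b6)).toNat +
    ((b8 == b7) == (b5 == b6)).toNat +
    ((b8 == b7) == (b9 == b10)).toNat +
    ((b8 == b7) == (b9 == b12)).toNat +
    ((b8 == b7) == (b10 == b12)).toNat

def av0 (b1 b2 b3 b4 b5 b6 b7 b8 b9 b10 b11 b12 b13 b14 : Bool) : ℕ :=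
  b1.toNat + b3.toNat + b5.toNat + b7.toNat + b9.toNat + b11.toNat + b13.toNat

def av1 (b1 b2 b3 b4 b5 b6 b7 b8 b9 b10 b11 b12 b13 b14 : Bool) : ℕ :=
  b2.toNat + b3.toNat + b6.toNat + b7.toNat + b10.toNat + b11.toNat + b14.toNat

def av2 (b1 b2 b3 b4 b5 b6 b7 b8 b9 b10 b11 b12 b13 b14 : Bool) : ℕ :=
  b4.toNat + b5.toNat + b6.toNat + b7.toNat + b12.toNat + b13.toNat + b14.toNat

def av3 (b1 b2 b3 b4 b5 b6 b7 b8 b9 b10 b11 b12 b13 b14 : Bool) : ℕ :=
  b8.toNat + b9.toNat + b10.toNat + b11.toNat + b12.toNat + b13.toNat + b14.toNat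

def leaf (b1 b2 b3 b4 b5 b6 b7 b8 b9 b10 b11 b12 b13 b14 : Bool) : Bool :=
  cmp4 (av0 b1 b2 b3 b4 b5 b6 b7 b8 b9 b10 b11 b12 b13 b14) (av1 b1 b2 b3 b4 b5 b6 b7 b8 b9 b10 b11 b12 b13 b14)
    (av2 b1 b2 b3 b4 b5 b6 b7 b8 b9 b10 b11 b12 b13 b14) (av3 b1 b2 b3 b4 b5 b6 b7 b8 b9 b10 b11 b12 b13 b14)
    (rpos b1 b2 b3 b4 b5 b6 b7 b8 b9 b10 b11 b12 b13 b14)

theorem leaf_all : (allB fun b1 => allB fun b2 => allB fun b3 => allB fun b4 => allB fun b5 => allB fun b6 => allB fun b7 => 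
    allB fun b8 => allB fun b9 => allB fun b10 => allB fun b11 => allB fun b12 => allB fun b13 => allB fun b14 => 
    leaf b1 b2 b3 b4 b5 b6 b7 b8 b9 b10 b11 b12 b13 b14) = true := by
  decide +kernel

theorem leaf_true (b1 b2 b3 b4 b5 b6 b7 b8 b9 b10 b11 b12 b13 b14 : Bool) : leaf b1 b2 b3 b4 b5 b6 b7 b8 b9 b10 b11 b12 b13 b14 = true := by
  have h := leaf_all
  have h := of_allB h b1
  have h := of_allB h b2
  have h := of_allB h b3
  have h := of_allB h b4
  have h := of_allB h b5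
  have h := of_allB h b6
  have h := of_allB h b7
  have h := of_allB h b8
  have h := of_allB h b9
  have h := of_allB h b10
  have h := of_allB h b11
  have h := of_allB h b12
  have h := of_allB h b13
  have h := of_allB h b14
  exact h

end Pool.Agent.Lib.MP_e6e31f_h67
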