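import Pool.Agent.Lib.MP_e6e31f_h67.Base
import Pool.Agent.Lib.MP_e6e31f_h67.Four

/-!
# The bounds for one, two, three and four hats
-/

set_option autoImplicit false

namespace Pool.Agent.Lib.MP_e6e31f_h67

open Finset

/-- The point of the cube with binary code `k`. -/
def pt {m : ℕ} (k : ℕ) : Fin m → Bool := fun i => k.testBit i

theorem univ_eq1 : (univ : Finset (Fin 1 → Bool)) = (range 2).image pt := by decide
theorem univ_eq2 : (univ : Finset (Fin 2 → Bool)) = (range 4).image pt := by decide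
theorem univ_eq3 : (univ : Finset (Fin 3 → Bool)) = (range 8).image pt := by decide
theorem univ_eq4 : (univ : Finset (Fin 4 → Bool)) = (range 16).image pt := by decide
theorem inj1 : Set.InjOn (pt (m := 1)) (range 2 : Finset ℕ) := by
  intro a ha b hb; revert a b; decide
theorem inj2 : Set.InjOn (pt (m := 2)) (range 4 : Finset ℕ) := by
  intro a ha b hb; revert a b; decide
theorem inj3 : Set.InjOn (pt (m := 3)) (range 8 : Finset ℕ) := by
  intro a ha b hb; revert a b; decide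
theorem inj4 : Set.InjOn (pt (m := 4)) (range 16 : Finset ℕ) := by
  intro a ha b hb; revert a b; decide

theorem ite_and_t (b : Bool) : (if b = true then 1 else 0 : ℤ) = (b.toNat : ℤ) := by
  cases b <;> rfl

theorem ite_and_f (b : Bool) : (if b = false then 1 else 0 : ℤ) = 1 - (b.toNat : ℤ) := by
  cases b <;> rfl

def R4 (h : (Fin 4 → Bool) → Bool) : ℤ :=
    2 * (sg (h (pt 1)) * sg (h (pt 14))) +
    2 * (sg (h (pt 2)) * sg (h (pt 13))) +
    2 * (sg (h (pt 4)) * sg (h (pt 11))) +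
    2 * (sg (h (pt 8)) * sg (h (pt 7))) +
    4 * (sg (h (pt 3)) * sg (h (pt 12))) +
    4 * (sg (h (pt 5)) * sg (h (pt 10))) +
    4 * (sg (h (pt 6)) * sg (h (pt 9))) +
    2 * (sg (h (pt 3)) * sg (h (pt 12)) * sg (h (pt 5)) * sg (h (pt 10))) +
    2 * (sg (h (pt 3)) * sg (h (pt 12)) * sg (h (pt 6)) * sg (h (pt 9))) +
    2 * (sg (h (pt 5)) * sg (h (pt 10)) * sg (h (pt 6)) * sg (h (pt 9))) +
    (sg (h (pt 1)) * sg (h (pt 14)) * sg (h (pt 6)) * sg (h (pt 10))) +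
    (sg (h (pt 1)) * sg (h (pt 14)) * sg (h (pt 6)) * sg (h (pt 12))) +
    (sg (h (pt 1)) * sg (h (pt 14)) * sg (h (pt 10)) * sg (h (pt 12))) +
    (sg (h (pt 1)) * sg (h (pt 14)) * sg (h (pt 3)) * sg (h (pt 5))) +
    (sg (h (pt 1)) * sg (h (pt 14)) * sg (h (pt 3)) * sg (h (pt 9))) +
    (sg (h (pt 1)) * sg (h (pt 14)) * sg (h (pt 5)) * sg (h (pt 9))) +
    (sg (h (pt 2)) * sg (h (pt 13)) * sg (h (pt 5)) * sg (h (pt 9))) +
    (sg (h (pt 2)) * sg (h (pt 13)) * sg (h (pt 5)) * sg (h (pt 12))) +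
    (sg (h (pt 2)) * sg (h (pt 13)) * sg (h (pt 9)) * sg (h (pt 12))) +
    (sg (h (pt 2)) * sg (h (pt 13)) * sg (h (pt 3)) * sg (h (pt 6))) +
    (sg (h (pt 2)) * sg (h (pt 13)) * sg (h (pt 3)) * sg (h (pt 10))) +
    (sg (h (pt 2)) * sg (h (pt 13)) * sg (h (pt 6)) * sg (h (pt 10))) +
    (sg (h (pt 4)) * sg (h (pt 11)) * sg (h (pt 3)) * sg (h (pt 9))) +
    (sg (h (pt 4)) * sg (h (pt 11)) * sg (h (pt 3)) * sg (h (pt 10))) +
    (sg (h (pt 4)) * sg (h (pt 11)) * sg (h (pt 9)) * sg (h (pt 10))) +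
    (sg (h (pt 4)) * sg (h (pt 11)) * sg (h (pt 5)) * sg (h (pt 6))) +
    (sg (h (pt 4)) * sg (h (pt 11)) * sg (h (pt 5)) * sg (h (pt 12))) +
    (sg (h (pt 4)) * sg (h (pt 11)) * sg (h (pt 6)) * sg (h (pt 12))) +
    (sg (h (pt 8)) * sg (h (pt 7)) * sg (h (pt 3)) * sg (h (pt 5))) +
    (sg (h (pt 8)) * sg (h (pt 7)) * sg (h (pt 3)) * sg (h (pt 6))) +
    (sg (h (pt 8)) * sg (h (pt 7)) * sg (h (pt 5)) * sg (h (pt 6))) +
    (sg (h (pt 8)) * sg (h (pt 7)) * sg (h (pt 9)) * sg (h (pt 10))) +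
    (sg (h (pt 8)) * sg (h (pt 7)) * sg (h (pt 9)) * sg (h (pt 12))) +
    (sg (h (pt 8)) * sg (h (pt 7)) * sg (h (pt 10)) * sg (h (pt 12)))

theorem R4_sum {n : ℕ} (f : (Fin 4 → Bool) → Fin n) :
    0 ≤ ∑ x : Fin n → Bool, R4 (fun y => x (f y)) := by
  simp only [R4, Finset.sum_add_distrib, ← Finset.mul_sum]
  have m0 := moment2 (f (pt 1)) (f (pt 14))
  have m1 := moment2 (f (pt 2)) (f (pt 13))
  have m2 := moment2 (f (pt 4)) (f (pt 11))
  have m3 := moment2 (f (pt 8)) (f (pt 7))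
  have m4 := moment2 (f (pt 3)) (f (pt 12))
  have m5 := moment2 (f (pt 5)) (f (pt 10))
  have m6 := moment2 (f (pt 6)) (f (pt 9))
  have m7 := moment4 (f (pt 3)) (f (pt 12)) (f (pt 5)) (f (pt 10))
  have m8 := moment4 (f (pt 3)) (f (pt 12)) (f (pt 6)) (f (pt 9))
  have m9 := moment4 (f (pt 5)) (f (pt 10)) (f (pt 6)) (f (pt 9))
  have m10 := moment4 (f (pt 1)) (f (pt 14)) (f (pt 6)) (f (pt 10))
  have m11 := moment4 (f (pt 1)) (f (pt 14)) (f (pt 6)) (f (pt 12))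
  have m12 := moment4 (f (pt 1)) (f (pt 14)) (f (pt 10)) (f (pt 12))
  have m13 := moment4 (f (pt 1)) (f (pt 14)) (f (pt 3)) (f (pt 5))
  have m14 := moment4 (f (pt 1)) (f (pt 14)) (f (pt 3)) (f (pt 9))
  have m15 := moment4 (f (pt 1)) (f (pt 14)) (f (pt 5)) (f (pt 9))
  have m16 := moment4 (f (pt 2)) (f (pt 13)) (f (pt 5)) (f (pt 9))
  have m17 := moment4 (f (pt 2)) (f (pt 13)) (f (pt 5)) (f (pt 12))
  have m18 := moment4 (f (pt 2)) (f (pt 13)) (f (pt 9)) (f (pt 12))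
  have m19 := moment4 (f (pt 2)) (f (pt 13)) (f (pt 3)) (f (pt 6))
  have m20 := moment4 (f (pt 2)) (f (pt 13)) (f (pt 3)) (f (pt 10))
  have m21 := moment4 (f (pt 2)) (f (pt 13)) (f (pt 6)) (f (pt 10))
  have m22 := moment4 (f (pt 4)) (f (pt 11)) (f (pt 3)) (f (pt 9))
  have m23 := moment4 (f (pt 4)) (f (pt 11)) (f (pt 3)) (f (pt 10))
  have m24 := moment4 (f (pt 4)) (f (pt 11)) (f (pt 9)) (f (pt 10))
  have m25 := moment4 (f (pt 4)) (f (pt 11)) (f (pt 5)) (f (pt 6))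
  have m26 := moment4 (f (pt 4)) (f (pt 11)) (f (pt 5)) (f (pt 12))
  have m27 := moment4 (f (pt 4)) (f (pt 11)) (f (pt 6)) (f (pt 12))
  have m28 := moment4 (f (pt 8)) (f (pt 7)) (f (pt 3)) (f (pt 5))
  have m29 := moment4 (f (pt 8)) (f (pt 7)) (f (pt 3)) (f (pt 6))
  have m30 := moment4 (f (pt 8)) (f (pt 7)) (f (pt 5)) (f (pt 6))
  have m31 := moment4 (f (pt 8)) (f (pt 7)) (f (pt 9)) (f (pt 10))
  have m32 := moment4 (f (pt 8)) (f (pt 7)) (f (pt 9)) (f (pt 12))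
  have m33 := moment4 (f (pt 8)) (f (pt 7)) (f (pt 10)) (f (pt 12))
  linarith

def S16 (c : ℕ → ℤ) (j : ℕ) : ℤ := ∑ k ∈ range 16, if k.testBit j = true then c k else 0

theorem S16_0 (c : ℕ → ℤ) : S16 c 0 = c 1 + c 3 + c 5 + c 7 + c 9 + c 11 + c 13 + c 15 := by
  simp [S16, Finset.sum_range_succ, Nat.testBit, Nat.shiftRight_eq_div_pow]

theorem S16_1 (c : ℕ → ℤ) : S16 c 1 = c 2 + c 3 + c 6 + c 7 + c 10 + c 11 + c 14 + c 15 := by
  simp [S16, Finset.sum_range_succ, Nat.testBit, Nat.shiftRight_eq_div_pow]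

theorem S16_2 (c : ℕ → ℤ) : S16 c 2 = c 4 + c 5 + c 6 + c 7 + c 12 + c 13 + c 14 + c 15 := by
  simp [S16, Finset.sum_range_succ, Nat.testBit, Nat.shiftRight_eq_div_pow]

theorem S16_3 (c : ℕ → ℤ) : S16 c 3 = c 8 + c 9 + c 10 + c 11 + c 12 + c 13 + c 14 + c 15 := by
  simp [S16, Finset.sum_range_succ, Nat.testBit, Nat.shiftRight_eq_div_pow]

theorem R4_eq (h : (Fin 4 → Bool) → Bool) : R4 h = 2 * (rpos (h (pt 1)) (h (pt 2)) (h (pt 3)) (h (pt 4)) (h (pt 5)) (h (pt 6)) (h (pt 7)) (h (pt 8)) (h (pt 9)) (h (pt 10)) (h (pt 11)) (h (pt 12)) (h (pt 13)) (h (pt 14)) : ℤ) - 50 := by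
  unfold R4 rpos
  simp only [sg_mul4]
  simp only [sg_mul]
  push_cast
  ring

theorem W4 (h : (Fin 4 → Bool) → Bool) (j j' : Fin 4) :
    W h j j' = S16 (fun k => ((h (pt k)).toNat : ℤ)) j +
      S16 (fun k => 1 - ((h (pt k)).toNat : ℤ)) j' := by
  have e := Finset.sum_image (s := range 16) (g := pt (m := 4))
    (f := fun y => ((if h y = true ∧ y j = true then 1 else 0 : ℤ) +
    (if h y = false ∧ y j' = true then 1 else 0 : ℤ))) inj4
  rw [← univ_eq4] at e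
  rw [W, e, S16, S16, ← Finset.sum_add_distrib]
  refine Finset.sum_congr rfl fun k _ => ?_
  have key : ∀ (i : Fin 4), (pt k : Fin 4 → Bool) i = k.testBit i := fun _ => rfl
  rw [key, key]
  cases h (pt k) <;> cases k.testBit j <;> cases k.testBit j' <;> simp

theorem H4 (h : (Fin 4 → Bool) → Bool) (j j' : Fin 4) : 16 * W h j j' + R4 h ≤ 178 := by
  have hl := leaf_true (h (pt 1)) (h (pt 2)) (h (pt 3)) (h (pt 4)) (h (pt 5)) (h (pt 6)) (h (pt 7)) (h (pt 8)) (h (pt 9)) (h (pt 10)) (h (pt 11)) (h (pt 12)) (h (pt 13)) (h (pt 14))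
  rw [R4_eq, W4]
  simp only [leaf, cmp4, Bool.and_eq_true, Nat.ble_eq, av0, av1, av2, av3] at hl
  generalize rpos (h (pt 1)) (h (pt 2)) (h (pt 3)) (h (pt 4)) (h (pt 5)) (h (pt 6)) (h (pt 7)) (h (pt 8)) (h (pt 9)) (h (pt 10)) (h (pt 11)) (h (pt 12)) (h (pt 13)) (h (pt 14)) = r at hl ⊢
  obtain ⟨⟨⟨⟨⟨⟨⟨⟨⟨⟨⟨l1, l2⟩, l3⟩, l4⟩, l5⟩, l6⟩, l7⟩, l8⟩, l9⟩, l10⟩, l11⟩, l12⟩ := hl
  fin_cases j <;> fin_cases j' <;>
    simp only [S16_0, S16_1, S16_2, S16_3] <;> omega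

def S8 (c : ℕ → ℤ) (j : ℕ) : ℤ := ∑ k ∈ range 8, if k.testBit j = true then c k else 0

theorem S8_0 (c : ℕ → ℤ) : S8 c 0 = c 1 + c 3 + c 5 + c 7 := by
  simp [S8, Finset.sum_range_succ, Nat.testBit, Nat.shiftRight_eq_div_pow]

theorem S8_1 (c : ℕ → ℤ) : S8 c 1 = c 2 + c 3 + c 6 + c 7 := by
  simp [S8, Finset.sum_range_succ, Nat.testBit, Nat.shiftRight_eq_div_pow]

theorem S8_2 (c : ℕ → ℤ) : S8 c 2 = c 4 + c 5 + c 6 + c 7 := by
  simp [S8, Finset.sum_range_succ, Nat.testBit, Nat.shiftRight_eq_div_pow]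

theorem W3 (h : (Fin 3 → Bool) → Bool) (j j' : Fin 3) :
    W h j j' = S8 (fun k => ((h (pt k)).toNat : ℤ)) j +
      S8 (fun k => 1 - ((h (pt k)).toNat : ℤ)) j' := by
  have e := Finset.sum_image (s := range 8) (g := pt (m := 3))
    (f := fun y => ((if h y = true ∧ y j = true then 1 else 0 : ℤ) +
    (if h y = false ∧ y j' = true then 1 else 0 : ℤ))) inj3
  rw [← univ_eq3] at e
  rw [W, e, S8, S8, ← Finset.sum_add_distrib]
  refine Finset.sum_congr rfl fun k _ => ?_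
  have key : ∀ (i : Fin 3), (pt k : Fin 3 → Bool) i = k.testBit i := fun _ => rfl
  rw [key, key]
  cases h (pt k) <;> cases k.testBit j <;> cases k.testBit j' <;> simp

def R3 (h : (Fin 3 → Bool) → Bool) : ℤ :=
  sg (h (pt 1)) * sg (h (pt 6)) + sg (h (pt 2)) * sg (h (pt 5)) + sg (h (pt 4)) * sg (h (pt 3))

theorem R3_sum {n : ℕ} (f : (Fin 3 → Bool) → Fin n) :
    0 ≤ ∑ x : Fin n → Bool, R3 (fun y => x (f y)) := by
  simp only [R3, Finset.sum_add_distrib]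
  have m1 := moment2 (f (pt 1)) (f (pt 6))
  have m2 := moment2 (f (pt 2)) (f (pt 5))
  have m3 := moment2 (f (pt 4)) (f (pt 3))
  linarith

theorem H3 (h : (Fin 3 → Bool) → Bool) (j j' : Fin 3) : 2 * W h j j' + R3 h ≤ 11 := by
  rw [W3, R3]
  fin_cases j <;> fin_cases j' <;> simp only [S8_0, S8_1, S8_2] <;>
    (generalize h (pt 1) = b1
     generalize h (pt 2) = b2
     generalize h (pt 3) = b3
     generalize h (pt 4) = b4
     generalize h (pt 5) = b5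
     generalize h (pt 6) = b6
     generalize h (pt 7) = b7
     revert b1 b2 b3 b4 b5 b6 b7
     decide)

def S4 (c : ℕ → ℤ) (j : ℕ) : ℤ := ∑ k ∈ range 4, if k.testBit j = true then c k else 0

theorem S4_0 (c : ℕ → ℤ) : S4 c 0 = c 1 + c 3 := by
  simp [S4, Finset.sum_range_succ, Nat.testBit, Nat.shiftRight_eq_div_pow]

theorem S4_1 (c : ℕ → ℤ) : S4 c 1 = c 2 + c 3 := by
  simp [S4, Finset.sum_range_succ, Nat.testBit, Nat.shiftRight_eq_div_pow]

theorem W2 (h : (Fin 2 → Bool) → Bool) (j j' : Fin 2) :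
    W h j j' = S4 (fun k => ((h (pt k)).toNat : ℤ)) j +
      S4 (fun k => 1 - ((h (pt k)).toNat : ℤ)) j' := by
  have e := Finset.sum_image (s := range 4) (g := pt (m := 2))
    (f := fun y => ((if h y = true ∧ y j = true then 1 else 0 : ℤ) +
    (if h y = false ∧ y j' = true then 1 else 0 : ℤ))) inj2
  rw [← univ_eq2] at e
  rw [W, e, S4, S4, ← Finset.sum_add_distrib]
  refine Finset.sum_congr rfl fun k _ => ?_
  have key : ∀ (i : Fin 2), (pt k : Fin 2 → Bool) i = k.testBit i := fun _ => rfl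
  rw [key, key]
  cases h (pt k) <;> cases k.testBit j <;> cases k.testBit j' <;> simp

theorem H2 (h : (Fin 2 → Bool) → Bool) (j j' : Fin 2) :
    2 * W h j j' + sg (h (pt 1)) * sg (h (pt 2)) ≤ 5 := by
  rw [W2]
  fin_cases j <;> fin_cases j' <;> simp only [S4_0, S4_1] <;>
    (generalize h (pt 1) = b1
     generalize h (pt 2) = b2
     generalize h (pt 3) = b3
     revert b1 b2 b3
     decide)

theorem H1 (h : (Fin 1 → Bool) → Bool) (j j' : Fin 1) : W h j j' ≤ 1 := by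
  have e := Finset.sum_image (s := range 2) (g := pt (m := 1))
    (f := fun y => ((if h y = true ∧ y j = true then 1 else 0 : ℤ) +
    (if h y = false ∧ y j' = true then 1 else 0 : ℤ))) inj1
  rw [← univ_eq1] at e
  rw [W, e]
  have key : ∀ (k : ℕ) (i : Fin 1), (pt k : Fin 1 → Bool) i = k.testBit i := fun _ _ => rfl
  have hj : j = 0 := Subsingleton.elim _ _
  have hj' : j' = 0 := Subsingleton.elim _ _
  subst hj hj'
  simp only [Finset.sum_range_succ, Finset.sum_range_zero, key]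
  cases h (pt 0) <;> cases h (pt 1) <;> decide

/-- The bounds for stacks `n` and `m ≤ 4` hats high. -/
theorem bound1 {n : ℕ} (f : (Fin 1 → Bool) → Fin n) (g : (Fin n → Bool) → Fin 1) :
    2 * wins f g ≤ 2 ^ n := by
  have h := wins_le f g 1 1 (fun _ => 0) (fun h j j' => by have := H1 h j j'; linarith) (by simp)
  zify; linarith

theorem bound2 {n : ℕ} (f : (Fin 2 → Bool) → Fin n) (g : (Fin n → Bool) → Fin 2) :
    4 * wins f g ≤ 5 * 2 ^ n := by
  have h := wins_le f g 2 5 _ H2 (moment2 _ _)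
  zify; linarith

theorem bound3 {n : ℕ} (f : (Fin 3 → Bool) → Fin n) (g : (Fin n → Bool) → Fin 3) :
    4 * wins f g ≤ 11 * 2 ^ n := by
  have h := wins_le f g 2 11 R3 H3 (R3_sum f)
  zify; linarith

theorem bound4 {n : ℕ} (f : (Fin 4 → Bool) → Fin n) (g : (Fin n → Bool) → Fin 4) :
    32 * wins f g ≤ 178 * 2 ^ n := by
  have h := wins_le f g 16 178 R4 H4 (R4_sum f)
  zify; linarith

end Pool.Agent.Lib.MP_e6e31f_h67
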