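import Pool.Agent.Lib.MP_e6e31f_h67.Base

/-!
# A strategy with few values

If `g` takes only the values in a set `S` of `s` hats, fixing the other hats of the stack `y` reduces
the game to games in which `B` wears `s` hats.
-/

set_option autoImplicit false

namespace Pool.Agent.Lib.MP_e6e31f_h67

open Finset

theorem wins_eq {n m : ℕ} (f : (Fin m → Bool) → Fin n) (g : (Fin n → Bool) → Fin m) :
    wins f g = ∑ x : Fin n → Bool, ∑ y : Fin m → Bool,
      (if x (f y) = true ∧ y (g x) = true then 1 else 0) := by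
  rw [wins, Finset.card_filter, Fintype.sum_prod_type]

theorem wins_comm {n m : ℕ} (f : (Fin m → Bool) → Fin n) (g : (Fin n → Bool) → Fin m) :
    wins g f = wins f g := by
  rw [wins_eq, wins_eq, Finset.sum_comm]
  refine Finset.sum_congr rfl fun x _ => Finset.sum_congr rfl fun y _ => ?_
  simp only [and_comm]

theorem slice {h s : ℕ} (S : Finset (Fin h)) (e : Fin s ≃ {i // i ∈ S})
    (f g : (Fin h → Bool) → Fin h) (hg : ∀ x, g x ∈ S) :
    wins f g = ∑ z : ({i // i ∉ S} → Bool),
      wins (fun v : Fin s → Bool => f ((Equiv.piEquivPiSubtypeProd (fun i => i ∈ S)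
        (fun _ => Bool)).symm (fun a => v (e.symm a), z)))
        (fun x => e.symm ⟨g x, hg x⟩) := by
  set E := Equiv.piEquivPiSubtypeProd (fun i : Fin h => i ∈ S) (fun _ => Bool) with hE
  have hval : ∀ (u : {i // i ∈ S} → Bool) (z : {i // i ∉ S} → Bool) (x : Fin h → Bool),
      E.symm (u, z) (g x) = u ⟨g x, hg x⟩ := by
    intro u z x
    rw [hE, Equiv.piEquivPiSubtypeProd_symm_apply]
    simp [hg x]
  rw [wins_eq]
  simp only [wins_eq]
  rw [Finset.sum_comm (s := (univ : Finset ({i // i ∉ S} → Bool)))]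
  refine Finset.sum_congr rfl fun x _ => ?_
  rw [← Equiv.sum_comp E.symm, Fintype.sum_prod_type, Finset.sum_comm]
  refine Finset.sum_congr rfl fun z _ => ?_
  rw [← Equiv.sum_comp (Equiv.arrowCongr e (Equiv.refl Bool))]
  refine Finset.sum_congr rfl fun v _ => ?_
  rw [hval]
  rfl

theorem slice_bound {h s c d : ℕ} (f g : (Fin h → Bool) → Fin h)
    (hs : (univ.image g).card = s)
    (hb : ∀ (f' : (Fin s → Bool) → Fin h) (g' : (Fin h → Bool) → Fin s),
      c * wins f' g' ≤ d * 2 ^ h) : c * 2 ^ s * wins f g ≤ d * 4 ^ h := by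
  set S := univ.image g with hS
  have hg : ∀ x, g x ∈ S := fun x => Finset.mem_image_of_mem _ (Finset.mem_univ x)
  have e : Fin s ≃ {i // i ∈ S} := (S.equivFinOfCardEq hs).symm
  rw [slice S e f g hg]
  have h1 : ∑ z : ({i // i ∉ S} → Bool),
      c * wins (fun v : Fin s → Bool => f ((Equiv.piEquivPiSubtypeProd (fun i => i ∈ S)
        (fun _ => Bool)).symm (fun a => v (e.symm a), z)))
        (fun x => e.symm ⟨g x, hg x⟩) ≤ ∑ _z : ({i // i ∉ S} → Bool), d * 2 ^ h :=
    Finset.sum_le_sum fun z _ => hb _ _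
  have hle : s ≤ h := by
    rw [← hs]
    exact (Finset.card_le_univ S).trans_eq (Fintype.card_fin h)
  rw [← Finset.mul_sum, Finset.sum_const, Finset.card_univ, Fintype.card_fun, Fintype.card_bool,
    Fintype.card_subtype_compl, Fintype.card_fin, Fintype.card_coe, hs, smul_eq_mul] at h1
  have h2 : 2 ^ s * 2 ^ (h - s) = 2 ^ h := by
    rw [← pow_add]
    congr 1
    omega
  have h4 : (4 : ℕ) ^ h = 2 ^ h * 2 ^ h := by
    rw [← mul_pow]
    norm_num
  calc c * 2 ^ s * _ = 2 ^ s * (c * _) := by ring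
    _ ≤ 2 ^ s * (2 ^ (h - s) * (d * 2 ^ h)) := Nat.mul_le_mul_left _ h1
    _ = (2 ^ s * 2 ^ (h - s)) * (d * 2 ^ h) := by ring
    _ = d * 4 ^ h := by rw [h2, h4]; ring

end Pool.Agent.Lib.MP_e6e31f_h67
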